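import Mathlib
import Pool.Agent.COSZ.OffC

/-!
# MP_78a764_an: zeros of cosine sums, the mean of the modulus and the additive energy

The number of zeros of a cosine sum bounds its mean modulus off small sets; hence sets whose
cosine sum is not concentrated on a small set, in particular sets of small additive energy, have
many zeros.
-/

open MeasureTheory

noncomputable section

namespace Pool.Agent.Results.MP_78a764_an.NormAndEnergy

/-- the cosine sum `f_A(θ) = ∑ cos (2 π a θ)`, `a ∈ A` -/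
def cosSum (A : Finset ℤ) (θ : ℝ) : ℝ := ∑ a ∈ A, Real.cos (2 * Real.pi * a * θ)

/-- the zeros of the cosine sum in `[0, 1)` -/
def zeroSet (A : Finset ℤ) : Set ℝ := {θ : ℝ | 0 ≤ θ ∧ θ < 1 ∧ cosSum A θ = 0}

/-- For every nonempty finite set `A` of integers, with `N` the (finite) number of zeros of `f_A` in
`[0, 1)`: for all `0 < t ≤ 1`, off a set of measure at most `t` the integral of `|f_A|` is at most
`34 √(N+1) (1 + log (1/t))`; the integral of `|f_A|` over `[0, 1]` is at most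
`163 √(N+1) (1 + log (‖f_A‖₂ / ‖f_A‖₁))`; and `|A|³ / E(A) ≤ 10⁶ (N+1) (1 + log (E(A) / |A|²))²`, where
`E(A)` is the additive energy. -/
theorem result (A : Finset ℤ) (hA : A.Nonempty) :
    (zeroSet A).Finite ∧
    (∀ t : ℝ, 0 < t → t ≤ 1 → ∃ E : Set ℝ, MeasurableSet E ∧ volume E ≤ ENNReal.ofReal t ∧
      ∫ θ in Set.Icc (0:ℝ) 1 \ E, |cosSum A θ| ≤
        34 * √((zeroSet A).ncard + 1) * (1 + Real.log (1 / t))) ∧
    ∫ θ in (0:ℝ)..1, |cosSum A θ| ≤ 163 * √((zeroSet A).ncard + 1) *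
      (1 + Real.log (√(∫ θ in (0:ℝ)..1, cosSum A θ ^ 2) / ∫ θ in (0:ℝ)..1, |cosSum A θ|)) ∧
    (A.card : ℝ) ^ 3 / A.addEnergy A ≤ 10 ^ 6 * ((zeroSet A).ncard + 1) *
      (1 + Real.log (A.addEnergy A / (A.card : ℝ) ^ 2)) ^ 2 := by
  refine ⟨COSZ.zeros_finite A hA, fun t h0 h1 => ?_, COSZ.nrm_le_zeros A hA, COSZ.energy_le_zeros A hA⟩
  obtain ⟨E, hE, _, hv, hi⟩ := COSZ.off_zeros A hA t h0 h1
  exact ⟨E, hE, hv, hi⟩

end Pool.Agent.Results.MP_78a764_an.NormAndEnergy
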