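import Mathlib
import Pool.Agent.COSZ.Main

namespace Pool.Agent.Results.MP_78a764_an.PowerOfLogLower

/-- There are `c > 0` and `N` such that for every set `A` of `n ≥ N` integers the cosine sum
`∑ cos (2 π a θ)`, `a ∈ A`, has finitely many, and at least `c (log n)^(2/7) / (log log n)^(4/7)`, distinct
zeros `θ` in `[0, 1)`. -/
theorem result : ∃ c : ℝ, 0 < c ∧ ∃ N : ℕ, ∀ A : Finset ℤ, N ≤ A.card →
    {θ : ℝ | 0 ≤ θ ∧ θ < 1 ∧ ∑ a ∈ A, Real.cos (2 * Real.pi * a * θ) = 0}.Finite ∧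
    c * (Real.log A.card) ^ ((2:ℝ) / 7) / (Real.log (Real.log A.card)) ^ ((4:ℝ) / 7) ≤
      ({θ : ℝ | 0 ≤ θ ∧ θ < 1 ∧ ∑ a ∈ A, Real.cos (2 * Real.pi * a * θ) = 0}.ncard : ℝ) :=
  COSZ.main

end Pool.Agent.Results.MP_78a764_an.PowerOfLogLower
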