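import Pool.Agent.ZN.Cnt

/-!
# The least number of zeros of a cosine sum over `n` integers is `O(n^(2/3))`
-/

set_option autoImplicit false

open Finset Real MeasureTheory Polynomial

namespace Pool.Agent.Results.MP_78a764_an.TwoThirds

open Pool.Agent.ZN

/-- `f_A(θ) = ∑_{a ∈ A} cos(2π a θ)` -/
noncomputable def cosSum (A : Finset ℤ) (θ : ℝ) : ℝ := ∑ a ∈ A, cos (2 * π * a * θ)

/-- the zeros of `f_A` in `[0,1)` -/
def zeroSet (A : Finset ℤ) : Set ℝ := {θ | 0 ≤ θ ∧ θ < 1 ∧ cosSum A θ = 0}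

/-- `Z(n)`: the least number of zeros of `f_A` in `[0,1)` over all `n`-element sets `A` of integers
(`Set.encard` is the number of elements, `⊤` for infinite sets) -/
noncomputable def Z (n : ℕ) : ℕ :=
  sInf {m : ℕ | ∃ A : Finset ℤ, A.card = n ∧ (zeroSet A).encard = m}

/-! ### Blocks are disjoint -/

lemma blk_lower {L : ℕ} {p : ℕ × ℕ} (hp : p ∈ Idx L) {k : ℕ} (hk : k ∈ blk p) :
    225 ^ (L - p.1) * 45 ^ p.1 ≤ k + hh p.1 := by
  rw [mem_Idx] at hp
  unfold blk at hk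
  rw [mem_Ico] at hk
  have h1 : 225 ^ (L - p.1) * 45 ^ p.1 ≤ p.2 * 45 ^ p.1 := Nat.mul_le_mul_right _ hp.2.1
  omega

lemma blk_upper {L : ℕ} {p : ℕ × ℕ} (hp : p ∈ Idx L) {k : ℕ} (hk : k ∈ blk p) :
    k < 4 * (225 ^ (L - p.1) * 45 ^ p.1) := by
  rw [mem_Idx] at hp
  unfold blk at hk
  rw [mem_Ico] at hk
  have h1 := ell_eq p.1
  have h4 : (p.2 + 1) * 45 ^ p.1 ≤ 4 * 225 ^ (L - p.1) * 45 ^ p.1 :=
    Nat.mul_le_mul_right _ hp.2.2
  have h7 : (p.2 + 1) * 45 ^ p.1 = p.2 * 45 ^ p.1 + 45 ^ p.1 := by ring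
  rw [mul_assoc] at h4
  omega

lemma scale_gap {L j j' : ℕ} (hj : j < j') (hj' : j' ≤ L) :
    4 * (225 ^ (L - j') * 45 ^ j') + hh j ≤ 225 ^ (L - j) * 45 ^ j := by
  obtain ⟨i, rfl⟩ : ∃ i, j' = j + 1 + i := ⟨j' - (j + 1), by omega⟩
  obtain ⟨r, rfl⟩ : ∃ r, L = j + 1 + i + r := ⟨L - (j + 1 + i), by omega⟩
  have e1 : j + 1 + i + r - (j + 1 + i) = r := by omega
  have e2 : j + 1 + i + r - j = 1 + i + r := by omega
  rw [e1, e2]
  have h1 : 225 ^ r * 45 ^ (j + 1 + i) ≤ 225 ^ r * (45 ^ (j + 1) * 225 ^ i) := by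
    rw [pow_add 45 (j + 1) i]
    apply Nat.mul_le_mul_left
    apply Nat.mul_le_mul_left
    exact Nat.pow_le_pow_left (by norm_num) _
  have h2 : 225 ^ (1 + i + r) * 45 ^ j = 5 * (225 ^ r * (45 ^ (j + 1) * 225 ^ i)) := by
    rw [pow_add, pow_add, pow_succ]; ring
  have h3 : hh j ≤ 225 ^ r * (45 ^ (j + 1) * 225 ^ i) := by
    have h4 := hh_lt j
    have h5 : 1 ≤ 225 ^ r := Nat.one_le_pow _ _ (by norm_num)
    have h6 : 1 ≤ 225 ^ i := Nat.one_le_pow _ _ (by norm_num)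
    have h7 : 45 ^ j ≤ 45 ^ (j + 1) := Nat.pow_le_pow_right (by norm_num) (by omega)
    calc hh j ≤ 45 ^ (j + 1) := by omega
      _ = 1 * (45 ^ (j + 1) * 1) := by ring
      _ ≤ _ := Nat.mul_le_mul h5 (Nat.mul_le_mul_left _ h6)
  omega

lemma blk_disjoint {L : ℕ} {p q : ℕ × ℕ} (hp : p ∈ Idx L) (hq : q ∈ Idx L) (hne : p ≠ q) :
    Disjoint (blk p) (blk q) := by
  rw [Finset.disjoint_left]
  intro k hkp hkq
  have hp' := (mem_Idx L p).1 hp
  have hq' := (mem_Idx L q).1 hq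
  rcases lt_trichotomy p.1 q.1 with h | h | h
  · have h1 := scale_gap h hq'.1
    have h2 := blk_upper hq hkq
    have h3 := blk_lower hp hkp
    omega
  · -- the same scale
    have hne2 : p.2 ≠ q.2 := fun h2 => hne (Prod.ext h h2)
    unfold blk at hkp hkq
    rw [mem_Ico] at hkp hkq
    rw [← h] at hkq
    have h1 := ell_eq p.1
    rcases lt_or_gt_of_ne hne2 with h2 | h2
    · have h3 : (p.2 + 1) * 45 ^ p.1 ≤ q.2 * 45 ^ p.1 := Nat.mul_le_mul_right _ h2
      have h7 : (p.2 + 1) * 45 ^ p.1 = p.2 * 45 ^ p.1 + 45 ^ p.1 := by ring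
      omega
    · have h3 : (q.2 + 1) * 45 ^ p.1 ≤ p.2 * 45 ^ p.1 := Nat.mul_le_mul_right _ h2
      have h7 : (q.2 + 1) * 45 ^ p.1 = q.2 * 45 ^ p.1 + 45 ^ p.1 := by ring
      omega
  · have h1 := scale_gap h hp'.1
    have h2 := blk_upper hp hkp
    have h3 := blk_lower hq hkq
    omega

/-! ### The set `A` -/

/-- the frequencies removed -/
def U (S : Finset (ℕ × ℕ)) : Finset ℕ := S.biUnion blk

/-- the set of natural numbers used -/
def AN (S : Finset (ℕ × ℕ)) (N : ℕ) : Finset ℕ := Icc 1 N \ U S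

lemma card_U (L : ℕ) (S : Finset (ℕ × ℕ)) (hS : S ⊆ Idx L) : (U S).card = cnt S := by
  unfold U cnt
  apply Finset.card_biUnion
  intro p hp q hq hne
  exact blk_disjoint (hS hp) (hS hq) hne

lemma U_sub (L : ℕ) (S : Finset (ℕ × ℕ)) (hS : S ⊆ Idx L) (N : ℕ) (hN : 4 * 225 ^ L ≤ N) :
    U S ⊆ Icc 1 N := by
  intro k hk
  obtain ⟨p, hp, hkp⟩ := mem_biUnion.1 hk
  have := blk_lt L p (hS hp) k hkp
  rw [mem_Icc]
  omega

lemma cnt_le (L : ℕ) (S : Finset (ℕ × ℕ)) (hS : S ⊆ Idx L) : cnt S ≤ 4 * 225 ^ L := by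
  rw [← card_U L S hS]
  have := Finset.card_le_card (U_sub L S hS (4 * 225 ^ L) le_rfl)
  rwa [Nat.card_Icc, Nat.add_sub_cancel] at this

lemma sum_U (L : ℕ) (S : Finset (ℕ × ℕ)) (hS : S ⊆ Idx L) (x : ℝ) :
    ∑ k ∈ U S, cos (k * x) = ∑ p ∈ S, D p x := by
  unfold U D
  apply Finset.sum_biUnion
  intro p hp q hq hne
  exact blk_disjoint (hS hp) (hS hq) hne

lemma AN_hf (L : ℕ) (S : Finset (ℕ × ℕ)) (hS : S ⊆ Idx L) (N : ℕ) (hN : 4 * 225 ^ L ≤ N)
    (x : ℝ) : 2 * sin (x / 2) * ∑ k ∈ AN S N, cos (k * x) = hf S (N + 1 / 2) x := by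
  have h1 : ∑ k ∈ AN S N, cos (k * x) = ∑ k ∈ Icc 1 N, cos (k * x) - ∑ p ∈ S, D p x := by
    rw [← sum_U L S hS]
    have := Finset.sum_sdiff (f := fun k : ℕ => cos ((k : ℝ) * x)) (U_sub L S hS N hN)
    unfold AN
    linarith
  have h2 : Icc 1 N = Ico 1 (1 + N) := by
    ext k; rw [mem_Icc, mem_Ico]; omega
  have h3 := tele 1 N x
  unfold hf
  rw [h1, Q_cos, h2, mul_sub, h3]
  push_cast
  have e1 : (1 + (N : ℝ) - 1 / 2) * x = (N + 1 / 2) * x := by ring
  have e2 : ((1 : ℝ) - 1 / 2) * x = x / 2 := by ring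
  rw [e1, e2]
  ring

/-- the corresponding set of integers -/
def AZ (B : Finset ℕ) : Finset ℤ := B.map Nat.castEmbedding

lemma cosSum_AZ (B : Finset ℕ) (θ : ℝ) : cosSum (AZ B) θ = ∑ k ∈ B, cos (k * (2 * π * θ)) := by
  unfold cosSum AZ
  rw [Finset.sum_map]
  apply Finset.sum_congr rfl
  intro k _
  congr 1
  simp only [Nat.castEmbedding_apply, Int.cast_natCast]
  ring

lemma cos_symm (B : Finset ℕ) (x : ℝ) : ∑ k ∈ B, cos (k * (2 * π - x)) = ∑ k ∈ B, cos (k * x) := by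
  apply Finset.sum_congr rfl
  intro k _
  have : (k : ℝ) * (2 * π - x) = k * (2 * π) - k * x := by ring
  have h2 : sin ((k : ℝ) * (2 * π)) = 0 := by
    have h3 := Real.sin_nat_mul_pi (2 * k)
    push_cast at h3
    rw [← h3]
    congr 1
    ring
  rw [this, cos_sub, cos_nat_mul_two_pi, h2]
  ring

/-- From a bound on the zeros in `(0,π]` to the zero set in `[0,1)`. -/
lemma zeroSet_bound (B : Finset ℕ) (hB : B.Nonempty) (b : ℝ)
    (hb : ∀ F : Finset ℝ, (∀ x ∈ F, x ∈ Set.Ioc 0 π ∧ ∑ k ∈ B, cos (k * x) = 0) →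
      (F.card : ℝ) ≤ b) :
    (zeroSet (AZ B)).Finite ∧ ((zeroSet (AZ B)).ncard : ℝ) ≤ 2 * b := by
  classical
  have key : ∀ F : Finset ℝ, (F : Set ℝ) ⊆ zeroSet (AZ B) → (F.card : ℝ) ≤ 2 * b := by
    intro F hF
    set F1 := F.filter (fun θ => θ ≤ 1 / 2) with hF1
    set F2 := F.filter (fun θ => ¬ θ ≤ 1 / 2) with hF2
    have hc : F.card = F1.card + F2.card := by
      rw [hF1, hF2, Finset.card_filter_add_card_filter_not]
    have h1 : (F1.card : ℝ) ≤ b := by
      have hinj : Function.Injective (fun θ : ℝ => 2 * π * θ) := by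
        intro x y hxy
        have : (2 * π) ≠ 0 := by positivity
        exact mul_left_cancel₀ this hxy
      rw [← Finset.card_image_of_injective F1 hinj]
      apply hb
      intro x hx
      obtain ⟨θ, hθ, rfl⟩ := mem_image.1 hx
      rw [hF1, mem_filter] at hθ
      obtain ⟨h0, _, h2⟩ := hF (mem_coe.2 hθ.1)
      rw [cosSum_AZ] at h2
      refine ⟨⟨?_, ?_⟩, h2⟩
      · rcases h0.lt_or_eq with h | h
        · positivity
        · rw [← h] at h2
          simp at h2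
          exact absurd h2 hB.ne_empty
      · show 2 * π * θ ≤ π
        nlinarith [pi_pos, hθ.2]
    have h2 : (F2.card : ℝ) ≤ b := by
      have hinj : Function.Injective (fun θ : ℝ => 2 * π - 2 * π * θ) := by
        intro x y hxy
        have : (2 * π) ≠ 0 := by positivity
        apply mul_left_cancel₀ this
        simp only at hxy
        linarith
      rw [← Finset.card_image_of_injective F2 hinj]
      apply hb
      intro x hx
      obtain ⟨θ, hθ, rfl⟩ := mem_image.1 hx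
      rw [hF2, mem_filter] at hθ
      obtain ⟨h0, h1, h2⟩ := hF (mem_coe.2 hθ.1)
      have h3 := not_le.1 hθ.2
      rw [cosSum_AZ] at h2
      refine ⟨⟨?_, ?_⟩, ?_⟩
      · show 0 < 2 * π - 2 * π * θ
        nlinarith [pi_pos]
      · show 2 * π - 2 * π * θ ≤ π
        nlinarith [pi_pos]
      · rw [cos_symm]; exact h2
    rw [hc]
    push_cast
    linarith
  have hfin : (zeroSet (AZ B)).Finite := by
    by_contra hinf
    obtain ⟨F, hF, hFc⟩ := Set.Infinite.exists_subset_card_eq hinf (⌈2 * b⌉₊ + 1)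
    have h1 := key F hF
    rw [hFc] at h1
    have h2 : 2 * b ≤ ⌈2 * b⌉₊ := Nat.le_ceil _
    push_cast at h1
    linarith
  refine ⟨hfin, ?_⟩
  rw [Set.ncard_eq_toFinset_card _ hfin]
  apply key
  simp

lemma small (n : ℕ) (hn : 1 ≤ n) (F : Finset ℝ)
    (hF : ∀ x ∈ F, x ∈ Set.Ioc 0 π ∧ ∑ k ∈ Icc 1 n, cos (k * x) = 0) : (F.card : ℝ) ≤ n := by
  have hP : (∑ k ∈ Icc 1 n, Chebyshev.T ℝ (k : ℤ)).natDegree ≤ n := by
    apply natDegree_sum_le_of_forall_le
    intro k hk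
    rw [Chebyshev.natDegree_T, Int.natAbs_natCast]
    exact (mem_Icc.1 hk).2
  have hP0 : (∑ k ∈ Icc 1 n, Chebyshev.T ℝ (k : ℤ)) ≠ 0 := by
    intro h
    have h1 := congrArg (eval 1) h
    rw [eval_finsetSum] at h1
    simp at h1
    omega
  have := (zeros_le _ hP0 F (fun x hx => ⟨(hF x hx).1, by
    rw [eval_finsetSum, ← (hF x hx).2]
    apply Finset.sum_congr rfl
    intro k _
    rw [Chebyshev.T_real_cos]
    push_cast
    rfl⟩)).trans hP
  exact_mod_cast this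

/-- The main construction. -/
theorem main (n : ℕ) (hn : 1 ≤ n) : ∃ A : Finset ℤ, A.card = n ∧ (∀ a ∈ A, 0 < a) ∧
    (zeroSet A).Finite ∧ ((zeroSet A).ncard : ℝ) ≤ 30000 * (n : ℝ) ^ (2 / 3 : ℝ) := by
  have hn1 : (1 : ℝ) ≤ n := by exact_mod_cast hn
  rcases lt_or_ge n 8 with h8 | h8
  · refine ⟨AZ (Icc 1 n), ?_, ?_, ?_⟩
    · unfold AZ; rw [Finset.card_map, Nat.card_Icc]; omega
    · intro a ha
      unfold AZ at ha
      rw [Finset.mem_map] at ha
      obtain ⟨k, hk, rfl⟩ := ha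
      have := (mem_Icc.1 hk).1
      simp only [Nat.castEmbedding_apply]
      omega
    · obtain ⟨h1, h2⟩ := zeroSet_bound (Icc 1 n) ⟨1, by rw [mem_Icc]; omega⟩ n (small n hn)
      refine ⟨h1, h2.trans ?_⟩
      have h3 : (1 : ℝ) ≤ (n : ℝ) ^ (2 / 3 : ℝ) := one_le_rpow hn1 (by norm_num)
      have h4 : (n : ℝ) ≤ 8 := by exact_mod_cast h8.le
      linarith
  · set L := Nat.log 3375 n with hL
    have hL1 : 3375 ^ L ≤ n := Nat.pow_log_le_self 3375 (by omega)
    have hL2 : n < 3375 ^ (L + 1) := Nat.lt_pow_succ_log_self (by norm_num) n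
    have h225 : 8 * 225 ^ L ≤ n := by
      rcases Nat.eq_zero_or_pos L with h0 | h0
      · rw [h0]; simpa using h8
      · refine le_trans ?_ hL1
        have h1 : 3375 ^ L = 15 ^ L * 225 ^ L := by rw [← mul_pow]; norm_num
        rw [h1]
        apply Nat.mul_le_mul_right
        calc 8 ≤ 15 ^ 1 := by norm_num
          _ ≤ 15 ^ L := Nat.pow_le_pow_right (by norm_num) h0
    obtain ⟨S, hS, hvol⟩ := exists_S L
    set N := n + cnt S with hN
    have hcnt := cnt_le L S hS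
    have h225' : 1 ≤ 225 ^ L := Nat.one_le_pow _ _ (by norm_num)
    have hcard : (AN S N).card = n := by
      unfold AN
      rw [Finset.card_sdiff_of_subset (U_sub L S hS N (by omega)), card_U L S hS, Nat.card_Icc]
      omega
    refine ⟨AZ (AN S N), ?_, ?_, ?_⟩
    · unfold AZ; rw [Finset.card_map]; exact hcard
    · intro a ha
      unfold AZ at ha
      rw [Finset.mem_map] at ha
      obtain ⟨k, hk, rfl⟩ := ha
      have := (mem_Icc.1 (mem_sdiff.1 hk).1).1
      simp only [Nat.castEmbedding_apply]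
      omega
    · have hbound : ∀ F : Finset ℝ,
          (∀ x ∈ F, x ∈ Set.Ioc 0 π ∧ ∑ k ∈ AN S N, cos (k * x) = 0) →
          (F.card : ℝ) ≤ 2 * ((volume (Bad S)).toReal * ((N + 1) / π) +
            (2 * (4 * 225 ^ L) + 1)) + 4 * 225 ^ L := by
        intro F hF
        apply zeros_count L N (by omega) S hS F
        intro x hx
        refine ⟨(hF x hx).1, ?_⟩
        rw [← AN_hf L S hS N (by omega), (hF x hx).2, mul_zero]
      obtain ⟨h1, h2⟩ := zeroSet_bound (AN S N)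
        (Finset.card_pos.1 (by omega)) _ hbound
      refine ⟨h1, h2.trans ?_⟩
      -- numerical estimates
      set y : ℝ := (n : ℝ) ^ (1 / 3 : ℝ) with hy
      have hy0 : 0 < y := by positivity
      have hy3 : y ^ 3 = n := by
        rw [hy, ← rpow_natCast, ← rpow_mul (by positivity)]
        norm_num
      have hy2 : (n : ℝ) ^ (2 / 3 : ℝ) = y ^ 2 := by
        rw [hy, ← rpow_natCast, ← rpow_mul (by positivity)]
        norm_num
      have hyL1 : (15 : ℝ) ^ L ≤ y := by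
        have h3 : ((15 : ℝ) ^ L) ^ 3 ≤ y ^ 3 := by
          rw [hy3, ← pow_mul, mul_comm, pow_mul]
          norm_num
          exact_mod_cast hL1
        exact le_of_pow_le_pow_left₀ (by norm_num) hy0.le h3
      have hyL2 : y < 15 ^ (L + 1) := by
        have h3 : y ^ 3 < ((15 : ℝ) ^ (L + 1)) ^ 3 := by
          rw [hy3, ← pow_mul, mul_comm, pow_mul]
          norm_num
          exact_mod_cast hL2
        exact lt_of_pow_lt_pow_left₀ 3 (by positivity) h3
      have hvol' : (volume (Bad S)).toReal ≤ 214 * π / 15 ^ L := by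
        apply ENNReal.toReal_le_of_le_ofReal (by positivity) hvol
      have h15 : (0 : ℝ) < 15 ^ L := by positivity
      have hN2 : (N : ℝ) + 1 ≤ 2 * n := by
        have : N + 1 ≤ 2 * n := by omega
        exact_mod_cast this
      have hA : (volume (Bad S)).toReal * ((N + 1) / π) ≤ 6420 * y ^ 2 := by
        calc (volume (Bad S)).toReal * ((N + 1) / π) ≤ 214 * π / 15 ^ L * (2 * n / π) := by
              gcongr
          _ = 428 * n / 15 ^ L := by field_simp; ring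
          _ ≤ 6420 * y ^ 2 := by
              rw [div_le_iff₀ h15, ← hy3]
              have h5 : y < 15 * 15 ^ L := by rw [pow_succ] at hyL2; linarith
              have h6 : y ^ 3 ≤ y ^ 2 * (15 * 15 ^ L) := by
                have : y ^ 3 = y ^ 2 * y := by ring
                rw [this]; gcongr
              nlinarith
      have h225r : (225 : ℝ) ^ L ≤ y ^ 2 := by
        have : (225 : ℝ) ^ L = (15 ^ L) ^ 2 := by
          rw [← pow_mul, mul_comm, pow_mul]; norm_num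
        rw [this]; gcongr
      have h1y : 1 ≤ y ^ 2 := by
        have : (1 : ℝ) ≤ 225 ^ L := one_le_pow₀ (by norm_num)
        linarith
      rw [hy2]
      linarith

/-- For every `n ≥ 1` one has `Z(n) ≤ 30000 n^(2/3)`; moreover the bound is attained by a set of
positive integers. -/
theorem result : ∀ n : ℕ, 1 ≤ n → (Z n : ℝ) ≤ 30000 * (n : ℝ) ^ (2 / 3 : ℝ) ∧
    ∃ A : Finset ℤ, A.card = n ∧ (∀ a ∈ A, 0 < a) ∧ (zeroSet A).Finite ∧
      ((zeroSet A).ncard : ℝ) ≤ 30000 * (n : ℝ) ^ (2 / 3 : ℝ) := by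
  intro n hn
  obtain ⟨A, h1, h2, h3, h4⟩ := main n hn
  refine ⟨?_, A, h1, h2, h3, h4⟩
  refine le_trans ?_ h4
  apply Nat.cast_le.2
  apply Nat.sInf_le
  exact ⟨A, h1, (h3.cast_ncard_eq).symm⟩

end Pool.Agent.Results.MP_78a764_an.TwoThirds
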